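import Pool.Agent.H93.PG.Targets

/-!
MP_32ebde_an, board pgs, row SKX: no long periodic intervals.
-/

set_option autoImplicit false

open MeasureTheory Filter Topology Finset Pool.Agent.H93.PF Pool.Agent.H93.PG

namespace Pool.Agent.H74.PG

/-- the first point of the level `k` -/
theorem skx_first {L : ℕ} {B : ℕ → Set ℤ} {c : ℤ → ℕ × ℕ} (hS : Sk L B c) (k : ℕ) (a : ℤ) :
    ∃ s ∈ B k, a ≤ s ∧ s < a + gg L k := by
  obtain ⟨s₀, hs₀, hle⟩ := hS.below k (a - 1)
  have key : ∀ n : ℕ, ∀ s ∈ B k, s < a → (a - s).toNat ≤ n → ∃ s ∈ B k, a ≤ s ∧ s < a + gg L k := by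
    intro n
    induction n with
    | zero =>
      intro s _ h1 h2
      omega
    | succ n ih =>
      intro s hs h1 h2
      obtain ⟨g, -, hg2, hg0, hgB, -⟩ := hS.next k s hs
      by_cases h3 : s + g < a
      · exact ih (s + g) hgB h3 (by omega)
      · refine ⟨s + g, hgB, by omega, ?_⟩
        have : (g : ℤ) ≤ gg L k := by exact_mod_cast hg2
        omega
  exact key _ s₀ hs₀ (by omega) le_rfl

theorem gg_step (L : ℕ) (hL : 0 < L) (k : ℕ) : 16 * gg L k ≤ gg L (k + 1) := by
  cases k with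
  | zero => simp only [gg]; omega
  | succ k =>
    simp only [gg]
    have : 2 * 16 ^ (k + 1 + 1) * L = 16 * (2 * 16 ^ (k + 1) * L) := by ring
    omega

theorem sg_gg (L : ℕ) (hL : 0 < L) : ∀ k, 15 * sg L (k + 1) ≤ 32 * gg L k := by
  intro k
  induction k with
  | zero => simp only [sg]; omega
  | succ k ih =>
    have h1 : sg L (k + 1 + 1) = sg L (k + 1) + 2 * gg L (k + 1) := rfl
    have h2 := gg_step L hL k
    omega

theorem le_gg (L : ℕ) (k : ℕ) : L ≤ gg L k := by
  cases k with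
  | zero => simp only [gg]; omega
  | succ k =>
    simp only [gg]
    exact Nat.le_mul_of_pos_left L (by positivity)

theorem gg_lt_nn (L : ℕ) (hL : 0 < L) (k : ℕ) : gg L k < nn L (k + 1) := by
  cases k with
  | zero => simp only [gg, nn, pow_zero]; omega
  | succ k =>
    simp only [gg, nn]
    have : 0 < 16 ^ (k + 1) * L := by positivity
    have e1 : 2 * 16 ^ (k + 1) * L = 2 * (16 ^ (k + 1) * L) := by ring
    have e2 : 14 * 16 ^ (k + 1) * L = 14 * (16 ^ (k + 1) * L) := by ring
    omega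

theorem exists_lev (L : ℕ) (hL : 0 < L) (q : ℕ) (h : 5 * gg L 0 ≤ q) :
    ∃ e, 5 * gg L e ≤ q ∧ q < 5 * gg L (e + 1) := by
  classical
  have hex : ∃ n, q < 5 * gg L n := by
    refine ⟨q + 1, ?_⟩
    simp only [gg]
    have h1 : q + 1 < 16 ^ (q + 1) := Nat.lt_pow_self (by norm_num)
    have h2 : 16 ^ (q + 1) ≤ 16 ^ (q + 1) * L := Nat.le_mul_of_pos_right _ hL
    have e1 : 2 * 16 ^ (q + 1) * L = 2 * (16 ^ (q + 1) * L) := by ring
    omega
  have h1 := Nat.find_spec hex
  have h0 : Nat.find hex ≠ 0 := by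
    intro h0
    rw [h0] at h1
    omega
  obtain ⟨e, he⟩ := Nat.exists_eq_succ_of_ne_zero h0
  refine ⟨e, ?_, ?_⟩
  · have := Nat.find_min hex (m := e) (by omega)
    omega
  · rw [he] at h1
    exact h1

/-- row SKX -/
theorem pf_SKX (hADR : T_ADR) (hRCG : T_RCG) : T_SKX := by
  intro L B c I hS hL hI kv q a b hkv hq hQI h hab
  have hq0 : (0 : ℤ) < q := by
    have : 0 < q := by omega
    exact_mod_cast this
  by_cases hcase : q < 5 * gg L 0
  · -- short
    obtain ⟨s, hs, hs1, hs2⟩ := skx_first hS 0 a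
    simp only [gg] at hs2 hcase
    have hsq : s + q < b := by
      push_cast at hs2
      omega
    have hs' : s + q ∈ B 0 := (hQI s hs1 hsq).mp hs
    obtain ⟨-, h1, h2, -⟩ := h s hs hs1 hsq
    have h3 := hADR L B c I hS hL hI 0 1 s (s + q) hs hs' (by omega) (by
      intro j _ hj
      have : j = 0 ∨ j = 1 := by omega
      rcases this with rfl | rfl
      · exact h1.symm
      · exact h2.symm)
    simp only [nn, pow_zero] at h3
    push_cast at h3
    omega
  · -- long
    obtain ⟨e, he1, he2⟩ := exists_lev L hL q (by omega)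
    have hg1 := gg_lt_nn L hL e
    -- a point of the exact level
    obtain ⟨s, hs, hsn, hs1, hs2⟩ : ∃ s ∈ B e, s ∉ B (e + 1) ∧ a ≤ s ∧ s < a + 2 * gg L e := by
      obtain ⟨s, hs, hs1, hs2⟩ := skx_first hS e a
      by_cases hsB : s ∈ B (e + 1)
      · obtain ⟨g, -, hg2, hg0, hgB, -⟩ := hS.next e s hs
        refine ⟨s + g, hgB, ?_, by omega, by omega⟩
        intro hcon
        obtain ⟨g', hg'1, -, -, -, hg'2⟩ := hS.next (e + 1) s hsB
        exact hg'2 (s + g) (by omega) (by omega) hcon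
      · exact ⟨s, hs, hsB, hs1, by omega⟩
    have hsg := sg_gg L hL e
    have hLg := le_gg L e
    have hsg1 : sg L (e + 1) = sg L e + 2 * gg L e := rfl
    have hQ := hRCG L B c hS hL q a b hQI (fun j hj h1 h2 => (h j hj h1 h2).1)
    have hlt1 : s + q < b - sg L (e + 1) := by omega
    have hlt0 : s + q < b - sg L e := by omega
    have hsq : s + q ∈ B e := (hQ e s hs1 hlt0).mp hs
    have hsqn : s + q ∉ B (e + 1) := fun hc => hsn ((hQ (e + 1) s hs1 hlt1).mpr hc)
    have hB0 : s ∈ B 0 := by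
      have : ∀ n, ∀ x ∈ B n, x ∈ B 0 := by
        intro n
        induction n with
        | zero => exact fun x hx => hx
        | succ n ih => exact fun x hx => ih x (hS.nest n hx)
      exact this e s hs
    obtain ⟨-, -, -, h4⟩ := h s hB0 hs1 (by omega)
    have h5 := h4 e hs hsn hsq hsqn
    have h6 := hADR L B c I hS hL hI e 2 s (s + q) hs hsq (by omega) (by
      intro j hj1 hj2
      obtain ⟨i, rfl⟩ := Nat.exists_eq_add_of_le hj1
      exact (h5 i (by omega)).symm)
    have e1 : nn L (e + 2) = 14 * 16 ^ (e + 1) * L := rfl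
    have e2 : gg L (e + 1) = 2 * 16 ^ (e + 1) * L := rfl
    rw [e1] at h6
    rw [e2] at he2
    have e3 : 2 * 16 ^ (e + 1) * L = 2 * (16 ^ (e + 1) * L) := by ring
    have e4 : 14 * 16 ^ (e + 1) * L = 14 * (16 ^ (e + 1) * L) := by ring
    rw [e3] at he2
    rw [e4] at h6
    generalize 16 ^ (e + 1) * L = Z at he2 h6
    push_cast at h6
    omega

end Pool.Agent.H74.PG
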